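import Pool.Agent.H138R2.Mey.Defs

set_option autoImplicit false
open N6ef48c04
open Pool.Agent.H251R2.Cops (CatchI)
open scoped Classical

namespace Pool.Agent.H138R2.Mey

variable {V : Type*}

theorem minimax {E : Type*} [AddCommGroup E] [Module ℝ E] {Φ : Type*} [Fintype Φ] [Nonempty Φ]
    (K : Set E) (hK : Convex ℝ K) (f : Φ → E → ℝ) (hf : ∀ φ, ConcaveOn ℝ K (f φ)) (c : ℝ)
    (h : ∀ l : Φ → ℝ, (∀ φ, 0 ≤ l φ) → ∑ φ, l φ = 1 → ∃ p ∈ K, c ≤ ∑ φ, l φ * f φ p)
    (ε : ℝ) (hε : 0 < ε) : ∃ p ∈ K, ∀ φ, c - ε ≤ f φ p := by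
  by_contra hcon
  push Not at hcon
  -- the two convex sets
  set A : Set (Φ → ℝ) := {u | ∀ φ, c - ε < u φ} with hA
  set B : Set (Φ → ℝ) := {u | ∃ p ∈ K, ∀ φ, u φ ≤ f φ p} with hB
  have hAconv : Convex ℝ A := by
    intro u hu v hv a b ha hb hab φ
    have h1 := hu φ
    have h2 := hv φ
    simp only [Pi.add_apply, Pi.smul_apply, smul_eq_mul]
    rcases ha.eq_or_lt with ha0 | ha0
    · subst ha0
      have : b = 1 := by linarith
      subst this; linarith
    · have h3 := mul_lt_mul_of_pos_left h1 ha0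
      have h4 := mul_le_mul_of_nonneg_left h2.le hb
      have h5 : a * (c - ε) + b * (c - ε) = c - ε := by rw [← add_mul, hab, one_mul]
      linarith
  have hAopen : IsOpen A := by
    have : A = ⋂ φ, {u : Φ → ℝ | c - ε < u φ} := by
      ext u; simp [hA]
    rw [this]
    exact isOpen_iInter_of_finite fun φ => isOpen_lt continuous_const (continuous_apply φ)
  have hBconv : Convex ℝ B := by
    rintro u ⟨p, hp, hup⟩ v ⟨q, hq, hvq⟩ a b ha hb hab
    refine ⟨a • p + b • q, hK hp hq ha hb hab, fun φ => ?_⟩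
    have h1 := (hf φ).2 hp hq ha hb hab
    simp only [smul_eq_mul] at h1
    simp only [Pi.add_apply, Pi.smul_apply, smul_eq_mul]
    nlinarith [mul_le_mul_of_nonneg_left (hup φ) ha, mul_le_mul_of_nonneg_left (hvq φ) hb]
  have hdisj : Disjoint A B := by
    rw [Set.disjoint_left]
    rintro u hu ⟨p, hp, hup⟩
    obtain ⟨φ, hφ⟩ := hcon p hp
    have := hu φ
    have := hup φ
    linarith
  obtain ⟨F, s, hFA, hFB⟩ := geometric_hahn_banach_open hAconv hAopen hBconv hdisj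
  set l : Φ → ℝ := fun φ => - F (Pi.single φ 1) with hl
  have hF : ∀ u : Φ → ℝ, F u = - ∑ φ, l φ * u φ := by
    intro u
    have h1 : u = ∑ φ, u φ • (Pi.single φ (1:ℝ) : Φ → ℝ) := by
      funext ψ
      simp [Finset.sum_apply, Pi.single_apply]
    conv_lhs => rw [h1]
    rw [map_sum, ← Finset.sum_neg_distrib]
    refine Finset.sum_congr rfl fun φ _ => ?_
    rw [map_smul, hl]; simp [mul_comm]
  have hl0 : ∀ φ, 0 ≤ l φ := by
    intro φ
    by_contra hneg
    push Not at hneg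
    -- base point
    set u0 : Φ → ℝ := fun _ => c - ε + 1 with hu0
    obtain ⟨t, ht0, ht⟩ : ∃ t : ℝ, 0 ≤ t ∧ s - F u0 ≤ t * (- l φ) := by
      refine ⟨max 0 ((s - F u0) / (- l φ)), le_max_left _ _, ?_⟩
      have := le_max_right 0 ((s - F u0) / (- l φ))
      rw [div_le_iff₀ (by linarith)] at this
      exact this
    have h2 : (u0 + t • (Pi.single φ (1:ℝ) : Φ → ℝ)) ∈ A := by
      intro ψ
      simp only [Pi.add_apply, Pi.smul_apply, smul_eq_mul, hu0]
      have : 0 ≤ t * (Pi.single φ (1:ℝ) : Φ → ℝ) ψ := by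
        apply mul_nonneg ht0
        by_cases h : ψ = φ
        · subst h; simp
        · rw [Pi.single_eq_of_ne h]
      linarith
    have h3 := hFA _ h2
    rw [map_add, map_smul, smul_eq_mul] at h3
    have h4 : F (Pi.single φ 1) = - l φ := by simp [hl]
    rw [h4] at h3
    linarith
  have hu : ∀ t : ℝ, 0 < t → - ((∑ φ, l φ) * (c - ε + t)) < s := by
    intro t ht
    have h1 : (fun _ => c - ε + t : Φ → ℝ) ∈ A := fun φ => by simp only; linarith
    have h2 := hFA _ h1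
    rw [hF] at h2
    rw [Finset.sum_mul]
    exact h2
  have hpos : 0 < ∑ φ, l φ := by
    refine lt_of_le_of_ne (Finset.sum_nonneg fun φ _ => hl0 φ) fun h0 => ?_
    have hlz : ∀ φ, l φ = 0 := fun φ =>
      (Finset.sum_eq_zero_iff_of_nonneg (fun φ _ => hl0 φ)).1 h0.symm φ (Finset.mem_univ φ)
    have h1 := hu 1 one_pos
    rw [← h0] at h1
    obtain ⟨p, hp, -⟩ := h (fun _ => 1 / (Fintype.card Φ : ℝ)) (fun _ => by positivity) (by
      simp)
    have h2 := hFB (fun φ => f φ p) ⟨p, hp, fun _ => le_rfl⟩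
    rw [hF] at h2
    simp [hlz] at h2 h1
    linarith
  obtain ⟨p, hp, hcp⟩ := h (fun φ => l φ / ∑ ψ, l ψ) (fun φ => div_nonneg (hl0 φ) hpos.le) (by
    rw [← Finset.sum_div, div_self hpos.ne'])
  have h2 := hFB (fun φ => f φ p) ⟨p, hp, fun _ => le_rfl⟩
  rw [hF] at h2
  have h3 : ∑ φ, l φ / (∑ ψ, l ψ) * f φ p = (∑ φ, l φ * f φ p) / ∑ ψ, l ψ := by
    rw [Finset.sum_div]
    exact Finset.sum_congr rfl fun φ _ => by ring
  rw [h3, le_div_iff₀ hpos] at hcp
  have h4 := hu (ε / 2) (by linarith)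
  nlinarith
  
end Pool.Agent.H138R2.Mey
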