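import Mathlib
import Pool.Prelude.Def_F_8db9d53c
import Pool.Agent.H251R2.Cops.Basic

set_option autoImplicit false
open N6ef48c04
open Pool.Agent.H251R2.Cops (CatchI)

namespace Pool.Agent.H138R2.Mey

variable {V : Type*}

/-- `Rch G h x z`: one can go from `x` to `z` in exactly `h` (lazy) moves. -/
def Rch (G : SimpleGraph V) : ℕ → V → V → Prop
  | 0, x, z => x = z
  | h + 1, x, z => ∃ x', Step G x x' ∧ Rch G h x' z

/-- `p ∈ Ach G h x y`: the robber is at `x` (to move), one cop is at `y`, `h` rounds are left.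
The cop has a randomised strategy which, whatever the robber does (he sees the cop), is at `z` with
him at the end with probability at least `p z` if he is at `z` at the end. -/
def Ach (G : SimpleGraph V) : ℕ → V → V → Set (V → ℝ)
  | 0, x, y => {p | (∀ z, 0 ≤ p z ∧ p z ≤ 1) ∧ (x ≠ y → p x = 0)}
  | h + 1, x, y => {p | (∀ z, 0 ≤ p z ∧ p z ≤ 1) ∧ ∀ x', Step G x x' →
      ∃ q ∈ convexHull ℝ {r : V → ℝ | ∃ y', Step G y y' ∧ r ∈ Ach G h x' y'},
        ∀ z, Rch G h x' z → p z ≤ q z}

/-- The cops at `c` win against the robber at `x` (robber to move) within `h` rounds. -/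
def Wn (G : SimpleGraph V) {ι : Type*} (h : ℕ) (c : ι → V) (x : V) : Prop :=
  (∃ i, c i = x) ∨ ∀ x', Step G x x' → CatchI G h c x'

/-- `M u v = ∑ z, m z P(u|z) Q(v|z)`. -/
noncomputable def MM [Fintype V] (m : V → ℝ) (P Q : V → V → ℝ) (u v : V) : ℝ :=
  ∑ z, m z * P z u * Q z v

/-- `M₁ u = ∑ z, m z P(u|z)`. -/
noncomputable def M1 [Fintype V] (m : V → ℝ) (P : V → V → ℝ) (u : V) : ℝ :=
  ∑ z, m z * P z u

/-- The potential of the multiplicative weights. -/
noncomputable def WW [Fintype V] (η : ℝ) (L : V → ℝ) : ℝ := ∑ z, Real.exp (η * L z)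

/-- The closed form potential of the windows which are still to come. -/
noncomputable def beta [Fintype V] (κ A t η : ℝ) (r : ℕ) (L : V → ℝ) (z : V) : ℝ :=
  (Fintype.card V : ℝ) ^ r *
    Real.exp (-κ * (r * (1 + A) + L z - (1 / η) * Real.log (WW η L) - r * t))

end Pool.Agent.H138R2.Mey
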